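import Pool.Agent.Helper56.RZ.GoalsF

/-!
# Project RZ5 (MP_f32c9c_an), packet SC5 (helper90): scaling of the averaged functional
-/

set_option autoImplicit false

open Set Filter Topology MeasureTheory

open scoped ContDiff

namespace Pool.Agent.Helper90.RZ

open Pool.Agent.Helper56.RZ

theorem fl_scale {N : ℕ} {p : Fin 3 → End N} (d : Tw N p) (ph : Fin 3 → E N → End N) (z0 : E N)
    (R ρ t : ℝ) (y s : E N) :
    Fl d (fun i z => ph i (z0 + R • z)) ρ t y s = Fl d ph (R * ρ) t (z0 + R • y) s := by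
  have h : ∀ w : E N, z0 + R • (y + ρ • w) = z0 + R • y + (R * ρ) • w := by
    intro w
    rw [smul_add, smul_smul, add_assoc]
  unfold Fl
  simp only [h]

theorem sc5 : StmtSC5 := by
  intro N p d χ ph z0 R ρ t hR
  unfold FF
  simp only [fl_scale]
  obtain ⟨G, hG⟩ : ∃ G : E N → ℝ, ∀ y, G y = ∫ s in {s | d.q s ≤ 1}, Fl d ph (R * ρ) t y s :=
    ⟨_, fun _ => rfl⟩
  simp only [← hG]
  obtain ⟨g, hg⟩ : ∃ g : E N → ℝ, ∀ y, g y = χ y * G (z0 + R • y) := ⟨_, fun _ => rfl⟩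
  have h1 : ∀ y, χ (R⁻¹ • (y - z0)) * G y = g (R⁻¹ • (y - z0)) := by
    intro y
    rw [hg, smul_smul, mul_inv_cancel₀ hR.ne', one_smul, add_sub_cancel]
  simp only [h1, ← hg]
  rw [integral_sub_right_eq_self (fun y : E N => g (R⁻¹ • y)) z0,
    Measure.integral_comp_inv_smul, finrank_euclideanSpace_fin, smul_eq_mul,
    abs_of_pos (pow_pos hR N)]

end Pool.Agent.Helper90.RZ
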